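import Pool.Agent.U667.MV4.A3

/-!
Package FIN4 of project MV4: the assembly of the moments of the linear forms in the unfolded
ordinates.
-/

set_option autoImplicit false

namespace Pool.Agent.U667.MV4

open MeasureTheory Filter Topology Set
open Pool.Agent.U398.MV
open scoped Nat

noncomputable section

/-- the final arithmetic -/
lemma arith {S P1 P2 M D TL lam Qe Ck a1 a2 Cg Cw Cl De e1 e2 : ℝ}
    (h1 : |S - P1| ≤ Ck * (2 * lam * (D + a1 * TL * Qe) + (D + a2 * TL * Qe) + Cg * TL * lam))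
    (h2 : |P2 - P1| ≤ Cw * TL * lam * (De * Qe))
    (h3 : |P2 - e1| ≤ Cl * TL * (lam + lam * (De * Qe)))
    (h4 : |e1 - M| ≤ e2 * TL * lam)
    (hTL : TL ≤ 13 * D) (hD : 0 ≤ D) (hTL0 : 0 ≤ TL) (hlam : 1 ≤ lam) (hQe : 1 ≤ Qe)
    (hCk : 0 ≤ Ck) (ha1 : 0 ≤ a1) (ha2 : 0 ≤ a2) (hCg : 0 ≤ Cg) (hCw : 0 ≤ Cw) (hCl : 0 ≤ Cl)
    (hDe : 1 ≤ De) (he2 : 0 ≤ e2) :
    |S - M| ≤ (Ck * (2 * (1 + 13 * a1) + (1 + 13 * a2) + 13 * Cg) + 13 * Cw * De +
      13 * Cl * (1 + De) + 13 * e2) * D * (lam * Qe) := by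
  have hX : 1 ≤ lam * Qe := by nlinarith
  have hlX : lam ≤ lam * Qe := by nlinarith
  have hX0 : 0 ≤ lam * Qe := by linarith
  have hTX : TL * (lam * Qe) ≤ 13 * D * (lam * Qe) := mul_le_mul_of_nonneg_right hTL hX0
  have hTlam : TL * lam ≤ 13 * D * (lam * Qe) :=
    (mul_le_mul_of_nonneg_left hlX hTL0).trans hTX
  have hQX : Qe ≤ lam * Qe := by nlinarith
  have hTQ : TL * Qe ≤ 13 * D * (lam * Qe) := (mul_le_mul_of_nonneg_left hQX hTL0).trans hTX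
  have hDX : D ≤ D * (lam * Qe) := by nlinarith
  have hDl : D * lam ≤ D * (lam * Qe) := mul_le_mul_of_nonneg_left hlX hD
  have t1 : 2 * lam * (D + a1 * TL * Qe) + (D + a2 * TL * Qe) + Cg * TL * lam ≤
      (2 * (1 + 13 * a1) + (1 + 13 * a2) + 13 * Cg) * (D * (lam * Qe)) := by
    have b1 := mul_le_mul_of_nonneg_left hTX ha1
    have b2 := mul_le_mul_of_nonneg_left hTQ ha2
    have b3 := mul_le_mul_of_nonneg_left hTlam hCg
    linarith
  have t2 := mul_le_mul_of_nonneg_left t1 hCk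
  have t3 : Cw * TL * lam * (De * Qe) ≤ 13 * Cw * De * (D * (lam * Qe)) := by
    have b1 := mul_le_mul_of_nonneg_left hTX (mul_nonneg hCw (by linarith : 0 ≤ De))
    linarith
  have t4 : Cl * TL * (lam + lam * (De * Qe)) ≤ 13 * Cl * (1 + De) * (D * (lam * Qe)) := by
    have b1 := mul_le_mul_of_nonneg_left hTX (mul_nonneg hCl (by linarith : 0 ≤ De))
    have b2 := mul_le_mul_of_nonneg_left hTlam hCl
    linarith
  have t5 : e2 * TL * lam ≤ 13 * e2 * (D * (lam * Qe)) := by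
    have b1 := mul_le_mul_of_nonneg_left hTlam he2
    linarith
  rw [abs_le] at *
  constructor <;> nlinarith [h1.1, h1.2, h2.1, h2.2, h3.1, h3.2, h4.1, h4.2]

set_option maxHeartbeats 2000000 in
theorem t_FIN4 : J_FIN4 := by
  intro hPU hCRU hLW hCW hPTW N g C1 hC1 hc hM k A ε hk hA hε
  obtain ⟨q, rfl⟩ : ∃ q, k = q + 1 := ⟨k - 1, by omega⟩
  obtain ⟨Ca, Ta, hCa, hTa, HA⟩ := hCRU hPTW hPU N g C1 hC1 hc hM 1 A ε hA hε
  obtain ⟨Cb, Tb, hCb, hTb, HB⟩ := hCRU hPTW hPU N g C1 hC1 hc hM q A ε hA hε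
  obtain ⟨Cp, Tp, hCp, hTp, HP⟩ := hPU N g C1 hc hM
  obtain ⟨Cm, Tm, hCm, hTm, HM⟩ := hM.1 (2 * q) (2 * Real.pi * A)
  obtain ⟨Cl, Tl, hCl, hTl, HL⟩ := hLW N g C1 hC1 hc hM (q + 1) A hA
  obtain ⟨Cw, Tw, hCw, hTw, HW⟩ := hCW hPU N g C1 hC1 hc hM (q + 1) A hA
  have hm := hc.mono
  have hpi := Real.pi_gt_three
  have hpi4 := Real.pi_lt_four
  obtain ⟨Ck, hCk⟩ : ∃ Ck : ℝ, Ck = ((q + 1 : ℕ) * 2 ^ q : ℝ) := ⟨_, rfl⟩
  have hCk0 : 0 ≤ Ck := by rw [hCk]; positivity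
  obtain ⟨Cg, hCg⟩ : ∃ Cg : ℝ, Cg = Cp * Real.sqrt (3 + Cm) * 4 ^ q := ⟨_, rfl⟩
  have hCg0 : 0 ≤ Cg := by rw [hCg]; positivity
  obtain ⟨De, hDe⟩ : ∃ De : ℝ, De = 1 + 3 ^ ε / ε := ⟨_, rfl⟩
  have hDe1 : 1 ≤ De := by
    rw [hDe]
    have : 0 ≤ (3 : ℝ) ^ ε / ε := by positivity
    linarith
  obtain ⟨e2, he2⟩ : ∃ e2 : ℝ, e2 = (1 + 3 * C1) * (((q + 1 - 1)‼ : ℕ) : ℝ) * (2 * A) :=
    ⟨_, rfl⟩
  have he20 : 0 ≤ e2 := by rw [he2]; positivity
  obtain ⟨LL, hLL⟩ : ∃ LL : ℝ, LL = A + 2 + 13 * 13 * (1 + 3 * C1) := ⟨_, rfl⟩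
  refine ⟨Ck * (2 * (1 + 13 * Ca) + (1 + 13 * Cb) + 13 * Cg) + 13 * Cw * De +
      13 * Cl * (1 + De) + 13 * e2,
    max (max (max Ta Tb) (max Tp Tm)) (max (max Tl Tw) (Real.exp LL)), by positivity,
    le_max_of_le_left (le_max_of_le_left (le_max_of_le_left hTa)), ?_⟩
  intro T hT R hR hRA m c a hc1 hc0 ha
  have hTa' : Ta ≤ T := (le_max_left _ _).trans ((le_max_left _ _).trans ((le_max_left _ _).trans hT))
  have hTb' : Tb ≤ T := (le_max_right _ _).trans ((le_max_left _ _).trans ((le_max_left _ _).trans hT))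
  have hTp' : Tp ≤ T := (le_max_left _ _).trans ((le_max_right _ _).trans ((le_max_left _ _).trans hT))
  have hTm' : Tm ≤ T := (le_max_right _ _).trans ((le_max_right _ _).trans ((le_max_left _ _).trans hT))
  have hTl' : Tl ≤ T := (le_max_left _ _).trans ((le_max_left _ _).trans ((le_max_right _ _).trans hT))
  have hTw' : Tw ≤ T := (le_max_right _ _).trans ((le_max_left _ _).trans ((le_max_right _ _).trans hT))
  have hTe' : Real.exp LL ≤ T := (le_max_right _ _).trans ((le_max_right _ _).trans hT)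
  have hT10 : 10 ≤ T := hTa.trans hTa'
  have hTp0 : 0 < T := by linarith
  have hLLT : LL ≤ Real.log T := (Real.le_log_iff_exp_le hTp0).2 hTe'
  obtain ⟨L, hL⟩ : ∃ L, L = Real.log T := ⟨_, rfl⟩
  have hLA : A + 2 ≤ L := by rw [hL]; linarith
  have hL1 : 13 * 13 * (1 + 3 * C1) ≤ L := by rw [hL]; linarith
  have hL0 : 0 < L := by linarith
  have hR' : (1 : ℝ) ≤ R := by exact_mod_cast hR
  have hlR : 0 ≤ Real.log R := Real.log_nonneg hR'
  obtain ⟨Q, hQ⟩ : ∃ Q, Q = 1 + Real.log R := ⟨_, rfl⟩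
  have hQ1 : 1 ≤ Q := by rw [hQ]; linarith
  have hQ0 : 0 < Q := by linarith
  have hQAL : Q ≤ 1 + A * L := by
    rw [hQ, hL]
    have : Real.log R ≤ R := Real.log_le_self (by positivity)
    linarith
  have hQAL2 : Q ≤ 2 * A * L := by nlinarith
  obtain ⟨D, hD⟩ : ∃ D : ℝ, D = (N (2 * T) : ℝ) - N T := ⟨_, rfl⟩
  have hD0 : 0 ≤ D := by
    rw [hD]
    have : (N T : ℝ) ≤ N (2 * T) := Nat.cast_le.2 (hm (by linarith))
    linarith
  have hasym := cnt_asym hc hC1 T hT10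
  rw [← hD, ← hL] at hasym
  have hTL0 : 0 ≤ T * L := by positivity
  have hTLD : T * L ≤ 13 * D := by
    have h1 := (abs_le.1 hasym).1
    have h2 : T * L / (2 * Real.pi) ≥ T * L / 8 := by
      refine div_le_div_of_nonneg_left hTL0 (by positivity) (by linarith)
    have h3 : (1 + 3 * C1) * T ≤ T * L / 169 := by
      rw [le_div_iff₀ (by norm_num)]
      have := mul_le_mul_of_nonneg_left hL1 hTp0.le
      linarith
    linarith
  obtain ⟨w, hw⟩ : ∃ w, w = 2 * Real.pi / Real.log T := ⟨_, rfl⟩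
  have hw0 : 0 < w := by rw [hw, ← hL]; positivity
  obtain ⟨lam, hlam⟩ : ∃ lam : ℝ, lam = Q ^ ((((q + 1 : ℕ) : ℝ) - 1) / 2) := ⟨_, rfl⟩
  have hlam1 : 1 ≤ lam := by
    rw [hlam]
    refine Real.one_le_rpow hQ1 ?_
    push_cast
    rw [add_sub_cancel_right]
    positivity
  have hlam0 : 0 < lam := by linarith
  have hlamsq : lam ^ 2 = Q ^ q := by rw [hlam]; exact lam_sq q Q hQ1
  obtain ⟨Qe, hQe⟩ : ∃ Qe : ℝ, Qe = Q ^ ε := ⟨_, rfl⟩
  have hQe1 : 1 ≤ Qe := by rw [hQe]; exact Real.one_le_rpow hQ1 hε.le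
  obtain ⟨K, hK⟩ : ∃ K : ℕ, K = ⌈Real.sqrt Q⌉₊ := ⟨_, rfl⟩
  have hsQ1 : 1 ≤ Real.sqrt Q := by rw [Real.one_le_sqrt]; exact hQ1
  have hK1 : Real.sqrt Q ≤ K := by rw [hK]; exact Nat.le_ceil _
  have hK2 : (K : ℝ) ≤ Real.sqrt Q + 1 := by rw [hK]; exact (Nat.ceil_lt_add_one (by positivity)).le
  have hK1' : 1 ≤ K := by
    have : (1 : ℝ) ≤ K := hsQ1.trans hK1
    exact_mod_cast this
  have hKL : (K : ℝ) ≤ Real.log T := by
    rw [← hL]
    have : Real.sqrt Q ≤ L - 1 := by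
      rw [Real.sqrt_le_left (by linarith)]
      nlinarith
    linarith
  have hlK : 1 + Real.log (1 + K) ≤ De * Qe := by
    rw [hDe, hQe]; exact logK ε Q hε hQ1 K hK2
  have hlK0 : 0 ≤ Real.log (1 + (K : ℝ)) := Real.log_nonneg (by
    have : (0 : ℝ) ≤ K := Nat.cast_nonneg _
    linarith)
  have hDQ : 1 ≤ De * Qe := by nlinarith
  obtain ⟨G, hG⟩ : ∃ G, G = Gf N c (fun i => 2 * Real.pi * a i / Real.log T) := ⟨_, rfl⟩
  have lG : LBd G := by rw [hG]; exact Gf_LBd hm c _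
  -- step 1
  have s1 := step1 (N := N) (g := g) (T := T) (w := w) hm hw0 q lam hlam1 c a hc0
  have s2 := E_mom (N := N) (g := g) (T := T) (w := w) hm hw0 hTp0.le 1 R (Ca * (T * L) * Qe)
    (by positivity) (fun b hb => by
      rw [hw, hL, hQe, hQ]
      exact HA T hTa' R b hR hRA hb) c a hc1 ha
  have s3 := E_mom (N := N) (g := g) (T := T) (w := w) hm hw0 hTp0.le q R (Cb * (T * L) * Qe)
    (by positivity) (fun b hb => by
      rw [hw, hL, hQe, hQ]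
      exact HB T hTb' R b hR hRA hb) c a hc1 ha
  have s4 := HP T hTp' (fun t => G t ^ (2 * q))
    (fun t => (even_two_mul q).pow_nonneg _) (lG.pow _).meas.aestronglyMeasurable
    (((lG.pow _).pow 2).on _ _)
  have s5 := G_mom (N := N) (T := T) hm q A Cm hCm hT10 (fun x y hx hy => HM T hTm' x y hx hy)
    R hR hRA c a hc1 hc0 ha
  rw [← hG] at s5 s1
  rw [← hQ] at s5
  rw [← hw, ← hL] at s4
  have s6 : PA N g T w (fun _ t => G t ^ (2 * q)) ≤ Cg * (T * L) * lam ^ 2 := by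
    refine s4.trans ?_
    have h1 : Real.sqrt (∫ t in (3 * T / 4)..(3 * T), (G t ^ (2 * q)) ^ 2) ≤
        Real.sqrt (3 + Cm) * Real.sqrt T * (4 * Q) ^ q := by
      refine (Real.sqrt_le_sqrt s5).trans (le_of_eq ?_)
      rw [Real.sqrt_mul (by positivity), Real.sqrt_mul (by positivity), mul_comm 2 q, pow_mul,
        Real.sqrt_sq (by positivity)]
    calc Cp * L * Real.sqrt T * Real.sqrt (∫ t in (3 * T / 4)..(3 * T), (G t ^ (2 * q)) ^ 2)
        ≤ Cp * L * Real.sqrt T * (Real.sqrt (3 + Cm) * Real.sqrt T * (4 * Q) ^ q) :=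
          mul_le_mul_of_nonneg_left h1 (by positivity)
      _ = Cp * Real.sqrt (3 + Cm) * (4 * Q) ^ q * L * (Real.sqrt T * Real.sqrt T) := by ring
      _ = Cg * (T * L) * lam ^ 2 := by
          rw [Real.mul_self_sqrt hTp0.le, hlamsq, hCg, mul_pow]
          ring
  have hPA1 : |(∑ n ∈ Finset.Ioc (N T) (N (2 * T)), (∑ i, c i * (uf g (n + a i) - a i)) ^ (q + 1)) -
      (-1) ^ (q + 1) * PA N g T w (fun _ t => G t ^ (q + 1))| ≤
      Ck * (2 * lam * (D + Ca * (T * L) * Qe) + (D + Cb * (T * L) * Qe) + Cg * (T * L) * lam) := by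
    refine s1.trans ?_
    rw [← hCk]
    refine mul_le_mul_of_nonneg_left ?_ hCk0
    rw [← hD] at s2 s3
    have b1 : lam⁻¹ * PA N g T w (fun _ t => G t ^ (2 * q)) ≤ Cg * (T * L) * lam := by
      calc lam⁻¹ * PA N g T w (fun _ t => G t ^ (2 * q)) ≤ lam⁻¹ * (Cg * (T * L) * lam ^ 2) :=
            mul_le_mul_of_nonneg_left s6 (by positivity)
        _ = Cg * (T * L) * lam := by field_simp
    have b2 := mul_le_mul_of_nonneg_left s2 (by positivity : 0 ≤ 2 * lam)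
    linarith
  -- windows
  have v1 := HW T hTw' R K hR hRA hK1' hKL m c a hc1 hc0 ha
  have v2 := HL T hTl' R K hR hRA hK1' hKL m c a hc1 hc0 ha
  rw [← hG, ← hw, ← hL, ← hQ, ← hlam] at v1
  rw [← hG, ← hL, ← hQ, ← hlam, lam_half q Q hQ1, ← hlam, hL, VL_eq (Real.log T) (by rw [← hL]; exact hL0),
    ← hL] at v2
  obtain ⟨P2, hP2⟩ : ∃ P2, P2 = PA N g T (2 * Real.pi * K / L) (fun _ t => G t ^ (q + 1)) :=
    ⟨_, rfl⟩
  rw [← hP2] at v1 v2
  have v3 : |P2 - PA N g T w (fun _ t => G t ^ (q + 1))| ≤ Cw * (T * L) * lam * (De * Qe) := by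
    refine v1.trans (mul_le_mul_of_nonneg_left ?_ (by positivity))
    calc (1 + Real.log (1 + (K : ℝ))) ^ (1 / 2 : ℝ) ≤ (1 + Real.log (1 + (K : ℝ))) ^ (1 : ℝ) :=
          Real.rpow_le_rpow_of_exponent_le (by linarith) (by norm_num)
      _ = 1 + Real.log (1 + (K : ℝ)) := Real.rpow_one _
      _ ≤ De * Qe := hlK
  have v4 : |P2 - T * L / (2 * Real.pi) * gM (q + 1) (VR c a)| ≤
      Cl * (T * L) * (lam + lam * (De * Qe)) := by
    refine v2.trans (mul_le_mul_of_nonneg_left (add_le_add le_rfl ?_) (by positivity))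
    have hKp : (0 : ℝ) < K := by exact_mod_cast hK1'
    rw [div_le_iff₀ hKp]
    calc lam * Real.sqrt Q * (1 + Real.log (1 + (K : ℝ))) ≤ lam * K * (De * Qe) := by
          refine mul_le_mul (mul_le_mul_of_nonneg_left hK1 hlam0.le) hlK (by linarith)
            (by positivity)
      _ = lam * (De * Qe) * K := by ring
  -- signs
  have hsgn : |((-1 : ℝ) ^ (q + 1))| = 1 := by rw [abs_pow]; simp
  have w3 : |(-1) ^ (q + 1) * P2 - (-1) ^ (q + 1) * PA N g T w (fun _ t => G t ^ (q + 1))| ≤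
      Cw * (T * L) * lam * (De * Qe) := by
    rw [← mul_sub, abs_mul, hsgn, one_mul]
    exact v3
  have w4 : |(-1) ^ (q + 1) * P2 - T * L / (2 * Real.pi) * gM (q + 1) (VR c a)| ≤
      Cl * (T * L) * (lam + lam * (De * Qe)) := by
    have e : (-1) ^ (q + 1) * P2 - T * L / (2 * Real.pi) * gM (q + 1) (VR c a) =
        (-1) ^ (q + 1) * (P2 - T * L / (2 * Real.pi) * gM (q + 1) (VR c a)) := by
      rw [mul_sub, mul_left_comm, gM_neg]
    rw [e, abs_mul, hsgn, one_mul]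
    exact v4
  have w5 : |T * L / (2 * Real.pi) * gM (q + 1) (VR c a) - D * gM (q + 1) (VR c a)| ≤
      e2 * (T * L) * lam := by
    rw [← sub_mul, abs_mul, abs_sub_comm]
    have h1 := gM_le (q + 1) (VR c a) Q hQ1 (by rw [hQ]; exact VR_le c a R hR hc1 ha)
    rw [lam_half q Q hQ1, ← hlam] at h1
    have h2 : Real.sqrt Q ≤ 2 * A * L :=
      (Real.sqrt_le_iff.2 ⟨by linarith, by nlinarith⟩ : Real.sqrt Q ≤ Q).trans hQAL2
    calc |D - T * L / (2 * Real.pi)| * |gM (q + 1) (VR c a)|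
        ≤ ((1 + 3 * C1) * T) * ((((q + 1 - 1)‼ : ℕ) : ℝ) * (lam * Real.sqrt Q)) :=
          mul_le_mul hasym h1 (abs_nonneg _) (by positivity)
      _ ≤ ((1 + 3 * C1) * T) * ((((q + 1 - 1)‼ : ℕ) : ℝ) * (lam * (2 * A * L))) := by gcongr
      _ = e2 * (T * L) * lam := by rw [he2]; ring
  have hfin := arith hPA1 w3 w4 w5 hTLD hD0 hTL0 hlam1 hQe1 hCk0 hCa.le hCb.le hCg0 hCw.le hCl.le
    hDe1 he20
  rw [← hD, ← hQ, Real.rpow_add hQ0, ← hlam, ← hQe]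
  exact hfin

end

end Pool.Agent.U667.MV4
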