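import Pool.Agent.U398.MV.Stm4

set_option autoImplicit false

namespace Pool.Agent.U667.MV4

open MeasureTheory Filter Topology Set
open Pool.Agent.U398.MV

noncomputable section

/-- measurable and locally bounded -/
structure LBd (f : ℝ → ℝ) : Prop where
  meas : Measurable f
  bdd : ∀ a b : ℝ, ∃ B : ℝ, ∀ t ∈ Icc a b, |f t| ≤ B

lemma LBd.on {f : ℝ → ℝ} (h : LBd f) (a b : ℝ) : IntegrableOn f (Icc a b) := by
  obtain ⟨B, hB⟩ := h.bdd a b
  refine Measure.integrableOn_of_bounded (M := B) ?_ h.meas.aestronglyMeasurable ?_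
  · rw [Real.volume_Icc]; exact ENNReal.ofReal_ne_top
  · rw [ae_restrict_iff' measurableSet_Icc]
    exact Eventually.of_forall fun t ht => by
      rw [Real.norm_eq_abs]; exact hB t ht

lemma LBd.ii {f : ℝ → ℝ} (h : LBd f) (a b : ℝ) : IntervalIntegrable f volume a b := by
  rw [intervalIntegrable_iff]
  exact (h.on (min a b) (max a b)).mono_set fun t ht => ⟨ht.1.le, ht.2⟩

lemma LBd.const (c : ℝ) : LBd fun _ => c :=
  ⟨measurable_const, fun _ _ => ⟨|c|, fun _ _ => le_rfl⟩⟩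

lemma LBd.add {f g : ℝ → ℝ} (hf : LBd f) (hg : LBd g) : LBd fun t => f t + g t :=
  ⟨hf.meas.add hg.meas, fun a b => by
    obtain ⟨B, hB⟩ := hf.bdd a b
    obtain ⟨B', hB'⟩ := hg.bdd a b
    exact ⟨B + B', fun t ht => (abs_add_le _ _).trans (add_le_add (hB t ht) (hB' t ht))⟩⟩

lemma LBd.mul {f g : ℝ → ℝ} (hf : LBd f) (hg : LBd g) : LBd fun t => f t * g t :=
  ⟨hf.meas.mul hg.meas, fun a b => by
    obtain ⟨B, hB⟩ := hf.bdd a b
    obtain ⟨B', hB'⟩ := hg.bdd a b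
    refine ⟨B * B', fun t ht => ?_⟩
    rw [abs_mul]
    exact mul_le_mul (hB t ht) (hB' t ht) (abs_nonneg _) ((abs_nonneg _).trans (hB t ht))⟩

lemma LBd.neg {f : ℝ → ℝ} (hf : LBd f) : LBd fun t => -f t :=
  ⟨hf.meas.neg, fun a b => by
    obtain ⟨B, hB⟩ := hf.bdd a b
    exact ⟨B, fun t ht => by rw [abs_neg]; exact hB t ht⟩⟩

lemma LBd.pow {f : ℝ → ℝ} (hf : LBd f) (n : ℕ) : LBd fun t => f t ^ n :=
  ⟨hf.meas.pow_const n, fun a b => by
    obtain ⟨B, hB⟩ := hf.bdd a b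
    exact ⟨B ^ n, fun t ht => by
      rw [abs_pow]; exact pow_le_pow_left₀ (abs_nonneg _) (hB t ht) n⟩⟩

lemma LBd.shift {f : ℝ → ℝ} (hf : LBd f) (x : ℝ) : LBd fun t => f (t + x) :=
  ⟨hf.meas.comp (measurable_id.add_const x), fun a b => by
    obtain ⟨B, hB⟩ := hf.bdd (a + x) (b + x)
    exact ⟨B, fun t ht => hB _ ⟨by linarith [ht.1], by linarith [ht.2]⟩⟩⟩

lemma LBd.sum {ι : Type} (s : Finset ι) {f : ι → ℝ → ℝ} (h : ∀ i, LBd (f i)) :
    LBd fun t => ∑ i ∈ s, f i t := by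
  classical
  induction s using Finset.induction_on with
  | empty => simpa using LBd.const 0
  | insert i s hi ih =>
    simp only [Finset.sum_insert hi]
    exact (h i).add ih

lemma Mf_cont : Continuous Mf := by
  unfold Mf
  exact (Real.continuous_mul_log.comp (continuous_id.div_const _)).sub (continuous_id.div_const _)

lemma sg_LBd {N : ℝ → ℕ} (hm : Monotone N) : LBd (sg N) := by
  refine ⟨?_, fun a b => ?_⟩
  · unfold sg
    exact (measurable_from_top.comp hm.measurable).sub Mf_cont.measurable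
  · obtain ⟨B, hB⟩ := isCompact_Icc.exists_bound_of_continuousOn (s := Icc a b)
      (f := Mf) Mf_cont.continuousOn
    refine ⟨N b + B, fun t ht => ?_⟩
    unfold sg
    have h1 : (N t : ℝ) ≤ N b := Nat.cast_le.2 (hm ht.2)
    have h2 := hB t ht
    rw [Real.norm_eq_abs] at h2
    have h3 : |(N t : ℝ) - Mf t| ≤ |(N t : ℝ)| + |Mf t| := abs_sub _ _
    rw [abs_of_nonneg (a := (N t : ℝ)) (Nat.cast_nonneg _)] at h3
    linarith

/-! ### the functional `PA` -/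

variable {N : ℝ → ℕ} {g : ℕ → ℝ} {T w : ℝ}

lemma PA_le (hw : 0 < w) {f h : ℕ → ℝ → ℝ}
    (hf : ∀ n, LBd (f n)) (hh : ∀ n, LBd (h n)) (hle : ∀ n t, f n t ≤ h n t) :
    PA N g T w f ≤ PA N g T w h := by
  unfold PA
  refine Finset.sum_le_sum fun n _ => mul_le_mul_of_nonneg_left ?_ (by positivity)
  exact intervalIntegral.integral_mono (by linarith) ((hf n).ii _ _) ((hh n).ii _ _)
    fun t => hle n t

lemma PA_add {f h : ℕ → ℝ → ℝ} (hf : ∀ n, LBd (f n)) (hh : ∀ n, LBd (h n)) :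
    PA N g T w (fun n t => f n t + h n t) = PA N g T w f + PA N g T w h := by
  unfold PA
  rw [← Finset.sum_add_distrib]
  refine Finset.sum_congr rfl fun n _ => ?_
  rw [intervalIntegral.integral_add ((hf n).ii _ _) ((hh n).ii _ _)]
  ring

lemma PA_mul (c : ℝ) (f : ℕ → ℝ → ℝ) :
    PA N g T w (fun n t => c * f n t) = c * PA N g T w f := by
  unfold PA
  rw [Finset.mul_sum]
  refine Finset.sum_congr rfl fun n _ => ?_
  rw [intervalIntegral.integral_const_mul]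
  ring

lemma PA_sum {ι : Type} (s : Finset ι) {f : ι → ℕ → ℝ → ℝ} (hf : ∀ i n, LBd (f i n)) :
    PA N g T w (fun n t => ∑ i ∈ s, f i n t) = ∑ i ∈ s, PA N g T w (f i) := by
  unfold PA
  rw [Finset.sum_comm]
  refine Finset.sum_congr rfl fun n _ => ?_
  rw [intervalIntegral.integral_finsetSum fun i _ => (hf i n).ii _ _, Finset.mul_sum]

lemma PA_const (hw : 0 < w) (Y : ℕ → ℝ) :
    PA N g T w (fun n _ => Y n) = ∑ n ∈ Finset.Ioc (N T) (N (2 * T)), Y n := by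
  unfold PA
  refine Finset.sum_congr rfl fun n _ => ?_
  rw [intervalIntegral.integral_const, smul_eq_mul]
  field_simp
  ring

lemma PA_one (hw : 0 < w) (hm : Monotone N) (hT : 0 ≤ T) :
    PA N g T w (fun _ _ => 1) = (N (2 * T) : ℝ) - N T := by
  rw [PA_const hw (fun _ => 1)]
  simp only [Finset.sum_const, Nat.card_Ioc, nsmul_eq_mul, mul_one]
  rw [Nat.cast_sub (hm (by linarith))]

/-! ### elementary inequalities -/

lemma jensen0 {m : ℕ} (c z : Fin m → ℝ) (hc : (∑ i, |c i|) ≤ 1) (n : ℕ) (hn : 1 ≤ n)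
    (hz : ∀ i, 0 ≤ z i) : (∑ i, |c i| * z i) ^ n ≤ ∑ i, |c i| * z i ^ n := by
  obtain ⟨s, hs⟩ : ∃ s, s = ∑ i, |c i| := ⟨_, rfl⟩
  have hs0 : 0 ≤ s := by rw [hs]; exact Finset.sum_nonneg fun i _ => abs_nonneg _
  rcases hs0.eq_or_lt with h0 | h0
  · have h1 : ∀ i, |c i| = 0 := by
      intro i
      have := (Finset.sum_eq_zero_iff_of_nonneg (fun i _ => abs_nonneg (c i))).1 (hs ▸ h0.symm)
      exact this i (Finset.mem_univ i)
    simp [h1, show n ≠ 0 by omega]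
  · have h1 := Real.pow_arith_mean_le_arith_mean_pow Finset.univ (fun i => |c i| / s) z
      (fun i _ => by positivity) (by rw [← Finset.sum_div, ← hs, div_self h0.ne'])
      (fun i _ => hz i) n
    have e1 : (∑ i, |c i| * z i) = s * ∑ i, |c i| / s * z i := by
      rw [Finset.mul_sum]
      refine Finset.sum_congr rfl fun i _ => ?_
      field_simp
    have e2 : (∑ i, |c i| * z i ^ n) = s * ∑ i, |c i| / s * z i ^ n := by
      rw [Finset.mul_sum]
      refine Finset.sum_congr rfl fun i _ => ?_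
      field_simp
    rw [e1, e2, mul_pow]
    have h2 : s ^ n ≤ s := by
      calc s ^ n ≤ s ^ 1 := pow_le_pow_of_le_one hs0 (hs ▸ hc) hn
        _ = s := pow_one s
    have h3 : 0 ≤ ∑ i, |c i| / s * z i :=
      Finset.sum_nonneg fun i _ => mul_nonneg (by positivity) (hz i)
    exact mul_le_mul h2 h1 (by positivity) hs0

lemma jensen {m : ℕ} (c z : Fin m → ℝ) (hc : (∑ i, |c i|) ≤ 1) (p : ℕ) :
    (∑ i, c i * z i) ^ (2 * p) ≤ 1 + ∑ i, |c i| * z i ^ (2 * p) := by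
  rcases Nat.eq_zero_or_pos p with rfl | hp
  · simp only [mul_zero, pow_zero, mul_one]
    have : 0 ≤ ∑ i, |c i| := Finset.sum_nonneg fun i _ => abs_nonneg _
    linarith
  · have h1 := jensen0 c (fun i => |z i|) hc (2 * p) (by omega) fun i => abs_nonneg _
    have h2 : ∀ i, |z i| ^ (2 * p) = z i ^ (2 * p) := fun i => by
      rw [pow_mul, sq_abs, ← pow_mul]
    simp only [h2] at h1
    have h3 : |∑ i, c i * z i| ≤ ∑ i, |c i| * |z i| := by
      refine (Finset.abs_sum_le_sum_abs _ _).trans (le_of_eq ?_)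
      exact Finset.sum_congr rfl fun i _ => abs_mul _ _
    have h4 : (∑ i, c i * z i) ^ (2 * p) ≤ (∑ i, |c i| * |z i|) ^ (2 * p) := by
      rw [← Even.pow_abs (even_two_mul p)]
      exact pow_le_pow_left₀ (abs_nonneg _) h3 _
    linarith

lemma pow_diff (q : ℕ) (Y Z E lam : ℝ) (hE : Y = Z + E) (hlam : 1 ≤ lam) :
    |Y ^ (q + 1) - Z ^ (q + 1)| ≤ ((q + 1 : ℕ) * 2 ^ q : ℝ) *
      (2 * lam * E ^ 2 + E ^ (2 * q) + lam⁻¹ * Z ^ (2 * q)) := by
  have h1 := abs_pow_sub_pow_le Y Z (q + 1)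
  have h2 : |Y - Z| = |E| := by rw [hE]; congr 1; ring
  rw [h2, Nat.add_sub_cancel] at h1
  have h3 : max |Y| |Z| ≤ |Z| + |E| := by
    refine max_le ?_ (by linarith [abs_nonneg E])
    rw [hE]; exact abs_add_le _ _
  have h4 : max |Y| |Z| ^ q ≤ 2 ^ q * (|Z| ^ q + |E| ^ q) := by
    calc max |Y| |Z| ^ q ≤ (|Z| + |E|) ^ q := pow_le_pow_left₀ (le_max_of_le_left (abs_nonneg _)) h3 q
      _ ≤ 2 ^ (q - 1) * (|Z| ^ q + |E| ^ q) := add_pow_le (abs_nonneg _) (abs_nonneg _) q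
      _ ≤ 2 ^ q * (|Z| ^ q + |E| ^ q) := by
        refine mul_le_mul_of_nonneg_right ?_ (by positivity)
        exact pow_le_pow_right₀ (by norm_num) (by omega)
  have h5 : |E| * |Z| ^ q ≤ lam * E ^ 2 + lam⁻¹ * Z ^ (2 * q) := by
    have e1 : Z ^ (2 * q) = (|Z| ^ q) ^ 2 := by
      rw [← pow_mul, mul_comm q 2, Even.pow_abs (even_two_mul q)]
    have e2 : E ^ 2 = |E| ^ 2 := (sq_abs E).symm
    rw [e1, e2]
    have hl : 0 < lam := by linarith
    have h6 : lam * |E| ^ 2 + lam⁻¹ * (|Z| ^ q) ^ 2 - |E| * |Z| ^ q =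
        lam⁻¹ * ((lam * |E| - |Z| ^ q / 2) ^ 2 + 3 / 4 * (|Z| ^ q) ^ 2) := by
      field_simp
      ring
    have h7 : 0 ≤ lam⁻¹ * ((lam * |E| - |Z| ^ q / 2) ^ 2 + 3 / 4 * (|Z| ^ q) ^ 2) := by positivity
    linarith
  have h8 : |E| * |E| ^ q ≤ E ^ 2 + E ^ (2 * q) := by
    have e1 : E ^ (2 * q) = (|E| ^ q) ^ 2 := by
      rw [← pow_mul, mul_comm q 2, Even.pow_abs (even_two_mul q)]
    have e2 : E ^ 2 = |E| ^ 2 := (sq_abs E).symm
    rw [e1, e2]
    nlinarith [sq_nonneg (|E| - |E| ^ q), sq_nonneg (|E|), sq_nonneg (|E| ^ q)]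
  have h9 : E ^ 2 ≤ lam * E ^ 2 := by nlinarith [sq_nonneg E]
  calc |Y ^ (q + 1) - Z ^ (q + 1)| ≤ |E| * ((q + 1 : ℕ) : ℝ) * max |Y| |Z| ^ q := h1
    _ ≤ |E| * ((q + 1 : ℕ) : ℝ) * (2 ^ q * (|Z| ^ q + |E| ^ q)) :=
        mul_le_mul_of_nonneg_left h4 (by positivity)
    _ = ((q + 1 : ℕ) * 2 ^ q : ℝ) * (|E| * |Z| ^ q + |E| * |E| ^ q) := by ring
    _ ≤ ((q + 1 : ℕ) * 2 ^ q : ℝ) * (2 * lam * E ^ 2 + E ^ (2 * q) + lam⁻¹ * Z ^ (2 * q)) := by
        refine mul_le_mul_of_nonneg_left ?_ (by positivity)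
        linarith

end

end Pool.Agent.U667.MV4
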