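import Pool.Agent.U667.MV4.A1

set_option autoImplicit false

namespace Pool.Agent.U667.MV4

open MeasureTheory Filter Topology Set
open Pool.Agent.U398.MV
open scoped Nat

noncomputable section

/-- the asymptotic count -/
lemma cnt_asym {N : ℝ → ℕ} {g : ℕ → ℝ} {C1 : ℝ} (hc : Cnt N g C1) (hC1 : 1 ≤ C1) (T : ℝ)
    (hT : 10 ≤ T) :
    |((N (2 * T) : ℝ) - N T) - T * Real.log T / (2 * Real.pi)| ≤ (1 + 3 * C1) * T := by
  have hTp : 0 < T := by linarith
  have hpi := Real.pi_gt_three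
  have hpi4 := Real.pi_lt_four
  have e1 : ((N (2 * T) : ℝ) - N T) - T * Real.log T / (2 * Real.pi) =
      (sg N (2 * T) - sg N T) +
        T / (2 * Real.pi) * (2 * Real.log 2 - 1 - Real.log (2 * Real.pi)) := by
    unfold sg Mf
    rw [Real.log_div (by positivity) (by positivity), Real.log_div (by positivity) (by positivity),
      Real.log_mul (by norm_num) hTp.ne']
    field_simp
    ring
  have h1 := hc.rvm (2 * T) (by linarith)
  have h2 := hc.rvm T hT
  have h3 : Real.log (2 * T) ≤ 2 * T := Real.log_le_self (by linarith)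
  have h4 : Real.log T ≤ T := Real.log_le_self (by linarith)
  have h5 : Real.log (2 * Real.pi) ≤ 3 * Real.log 2 := by
    have : (3 : ℝ) * Real.log 2 = Real.log (2 ^ 3) := by
      rw [Real.log_pow]; norm_num
    rw [this]
    exact Real.log_le_log (by positivity) (by linarith)
  have h6 : 0 ≤ Real.log (2 * Real.pi) := Real.log_nonneg (by linarith)
  have h7 : Real.log 2 ≤ 1 := by linarith [Real.log_two_lt_d9]
  have h8 : 0 < Real.log 2 := Real.log_pos (by norm_num)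
  have h9 : |2 * Real.log 2 - 1 - Real.log (2 * Real.pi)| ≤ 2 := by
    rw [abs_le]; constructor <;> linarith
  have h10 : |T / (2 * Real.pi) * (2 * Real.log 2 - 1 - Real.log (2 * Real.pi))| ≤ T := by
    rw [abs_mul, abs_of_pos (by positivity)]
    calc T / (2 * Real.pi) * |2 * Real.log 2 - 1 - Real.log (2 * Real.pi)|
        ≤ T / (2 * Real.pi) * 2 := mul_le_mul_of_nonneg_left h9 (by positivity)
      _ = T / Real.pi := by field_simp
      _ ≤ T := div_le_self hTp.le (by linarith)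
  rw [e1]
  have h11 : |sg N (2 * T) - sg N T| ≤ 3 * C1 * T := by
    have := abs_sub (sg N (2 * T)) (sg N T)
    nlinarith
  have := abs_add_le (sg N (2 * T) - sg N T)
    (T / (2 * Real.pi) * (2 * Real.log 2 - 1 - Real.log (2 * Real.pi)))
  linarith

lemma gM_neg (k : ℕ) (V : ℝ) : (-1 : ℝ) ^ k * gM k V = gM k V := by
  unfold gM
  split_ifs with h
  · rw [h.neg_one_pow, one_mul]
  · simp

lemma VL_eq {m : ℕ} (L : ℝ) (hL : 0 < L) (c : Fin m → ℝ) (a : Fin m → ℕ) :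
    VL L c (fun i => 2 * Real.pi * a i / L) = VR c a := by
  unfold VL VR
  congr 1
  refine Finset.sum_congr rfl fun i _ => Finset.sum_congr rfl fun j _ => ?_
  congr 3
  have : 2 * Real.pi * (a i : ℝ) / L - 2 * Real.pi * a j / L = 2 * Real.pi / L * (a i - a j) := by
    ring
  rw [this, abs_mul, abs_of_pos (by positivity)]
  field_simp

lemma VR_le {m : ℕ} (c : Fin m → ℝ) (a : Fin m → ℕ) (R : ℕ) (hR : 1 ≤ R)
    (hc : (∑ i, |c i|) ≤ 1) (ha : ∀ i, a i ≤ R) : |VR c a| ≤ 1 + Real.log R := by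
  have hR' : (1 : ℝ) ≤ R := by exact_mod_cast hR
  have hlR : 0 ≤ Real.log R := Real.log_nonneg hR'
  have hl : ∀ i j, |Real.log (1 + |(a i : ℝ) - a j|)| ≤ 1 + Real.log R := by
    intro i j
    have h1 : |(a i : ℝ) - a j| ≤ R := by
      have hi : (a i : ℝ) ≤ R := by exact_mod_cast ha i
      have hj : (a j : ℝ) ≤ R := by exact_mod_cast ha j
      have hi0 : (0 : ℝ) ≤ a i := Nat.cast_nonneg _
      have hj0 : (0 : ℝ) ≤ a j := Nat.cast_nonneg _
      rw [abs_le]; constructor <;> linarith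
    rw [abs_of_nonneg (Real.log_nonneg (by linarith [abs_nonneg ((a i : ℝ) - a j)]))]
    calc Real.log (1 + |(a i : ℝ) - a j|) ≤ Real.log (2 * R) :=
          Real.log_le_log (by positivity) (by linarith)
      _ = Real.log 2 + Real.log R := Real.log_mul (by norm_num) (by positivity)
      _ ≤ 1 + Real.log R := by linarith [Real.log_two_lt_d9]
  unfold VR
  rw [abs_mul]
  have h2 : |∑ i, ∑ j, c i * c j * Real.log (1 + |(a i : ℝ) - a j|)| ≤ 1 + Real.log R := by
    calc |∑ i, ∑ j, c i * c j * Real.log (1 + |(a i : ℝ) - a j|)|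
        ≤ ∑ i, |∑ j, c i * c j * Real.log (1 + |(a i : ℝ) - a j|)| :=
          Finset.abs_sum_le_sum_abs _ _
      _ ≤ ∑ i, ∑ j, |c i| * |c j| * (1 + Real.log R) := by
          refine Finset.sum_le_sum fun i _ => (Finset.abs_sum_le_sum_abs _ _).trans ?_
          refine Finset.sum_le_sum fun j _ => ?_
          rw [abs_mul, abs_mul]
          exact mul_le_mul_of_nonneg_left (hl i j) (by positivity)
      _ = (∑ i, |c i|) * (∑ j, |c j|) * (1 + Real.log R) := by
          rw [Finset.sum_mul_sum, Finset.sum_mul]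
          refine Finset.sum_congr rfl fun i _ => ?_
          rw [Finset.sum_mul]
      _ ≤ 1 * 1 * (1 + Real.log R) := by
          have h0 : 0 ≤ ∑ i, |c i| := Finset.sum_nonneg fun i _ => abs_nonneg _
          gcongr
      _ = 1 + Real.log R := by ring
  have h3 : |(-(1 / (2 * Real.pi ^ 2)))| ≤ 1 := by
    rw [abs_neg, abs_of_pos (by positivity)]
    rw [div_le_one (by positivity)]
    nlinarith [Real.pi_gt_three]
  calc |(-(1 / (2 * Real.pi ^ 2)))| * |∑ i, ∑ j, c i * c j * Real.log (1 + |(a i : ℝ) - a j|)|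
      ≤ 1 * (1 + Real.log R) := mul_le_mul h3 h2 (abs_nonneg _) zero_le_one
    _ = 1 + Real.log R := one_mul _

lemma gM_le (k : ℕ) (V Q : ℝ) (hQ : 1 ≤ Q) (hV : |V| ≤ Q) :
    |gM k V| ≤ ((k - 1)‼ : ℝ) * Q ^ ((k : ℝ) / 2) := by
  have hQ0 : 0 ≤ Q := by linarith
  unfold gM
  split_ifs with h
  · obtain ⟨j, rfl⟩ := h
    have e1 : (j + j) / 2 = j := by omega
    have e2 : (((j + j : ℕ) : ℝ)) / 2 = (j : ℝ) := by push_cast; ring
    rw [e1, e2, Real.rpow_natCast, abs_mul, abs_of_nonneg (Nat.cast_nonneg _), abs_pow]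
    exact mul_le_mul_of_nonneg_left (pow_le_pow_left₀ (abs_nonneg _) hV _) (Nat.cast_nonneg _)
  · rw [abs_zero]; positivity

/-- parameters: `Q`, `lam = Q^((k-1)/2)` -/
lemma lam_sq (q : ℕ) (Q : ℝ) (hQ : 1 ≤ Q) :
    (Q ^ ((((q + 1 : ℕ) : ℝ) - 1) / 2)) ^ 2 = Q ^ q := by
  have hQ0 : 0 ≤ Q := by linarith
  rw [← Real.rpow_natCast (Q ^ ((((q + 1 : ℕ) : ℝ) - 1) / 2)) 2, ← Real.rpow_mul hQ0,
    ← Real.rpow_natCast Q q]
  congr 1
  push_cast
  ring

lemma lam_half (q : ℕ) (Q : ℝ) (hQ : 1 ≤ Q) :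
    Q ^ (((q + 1 : ℕ) : ℝ) / 2) = Q ^ ((((q + 1 : ℕ) : ℝ) - 1) / 2) * Real.sqrt Q := by
  have hQ0 : 0 < Q := by linarith
  rw [Real.sqrt_eq_rpow, ← Real.rpow_add hQ0]
  congr 1
  ring

lemma logK (ε Q : ℝ) (hε : 0 < ε) (hQ : 1 ≤ Q) (K : ℕ) (hK : (K : ℝ) ≤ Real.sqrt Q + 1) :
    1 + Real.log (1 + K) ≤ (1 + 3 ^ ε / ε) * Q ^ ε := by
  have h1 : Real.sqrt Q ≤ Q := Real.sqrt_le_iff.2 ⟨by linarith, by nlinarith⟩
  have hK0 : (0 : ℝ) ≤ K := Nat.cast_nonneg _
  have h2 : (1 : ℝ) + K ≤ 3 * Q := by linarith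
  have h3 : Real.log (1 + K) ≤ (3 * Q) ^ ε / ε :=
    (Real.log_le_log (by linarith) h2).trans (Real.log_le_rpow_div (by linarith) hε)
  rw [Real.mul_rpow (by norm_num) (by linarith)] at h3
  have h4 : 1 ≤ Q ^ ε := Real.one_le_rpow hQ hε.le
  have e : (1 + 3 ^ ε / ε) * Q ^ ε = Q ^ ε + 3 ^ ε * Q ^ ε / ε := by ring
  rw [e]
  linarith

end

end Pool.Agent.U667.MV4
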