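import Pool.Agent.U667.MV4.A2

set_option autoImplicit false

namespace Pool.Agent.U667.MV4

open MeasureTheory Filter Topology Set
open Pool.Agent.U398.MV
open scoped Nat

noncomputable section

variable {N : ℝ → ℕ} {g : ℕ → ℝ} {T w : ℝ}

/-- the comparison of one ordinate -/
def ee (N : ℝ → ℕ) (g : ℕ → ℝ) (T : ℝ) (a n : ℕ) (t : ℝ) : ℝ :=
  uf g (n + a) - uf g n - a + (sg N (t + 2 * Real.pi * a / Real.log T) - sg N t)

lemma ee_LBd (hm : Monotone N) (a n : ℕ) : LBd (ee N g T a n) := by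
  have h := sg_LBd hm
  have h1 := (LBd.const (uf g (n + a) - uf g n - a)).add
    ((h.shift (2 * Real.pi * a / Real.log T)).add h.neg)
  have e : ee N g T a n = fun t => (uf g (n + a) - uf g n - a) +
    (sg N (t + 2 * Real.pi * a / Real.log T) + -sg N t) := by
    funext t
    unfold ee
    ring
  rw [e]
  exact h1

lemma Gf_LBd (hm : Monotone N) {m : ℕ} (c x : Fin m → ℝ) : LBd (Gf N c x) := by
  have h := sg_LBd hm
  exact LBd.sum Finset.univ (f := fun i t => c i * sg N (t + x i))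
    fun i => (LBd.const (c i)).mul (h.shift (x i))

lemma Gf_sub {m : ℕ} (c x : Fin m → ℝ) (hc0 : (∑ i, c i) = 0) (t s : ℝ) :
    Gf N c x t = ∑ i, c i * (sg N (t + x i) - s) := by
  unfold Gf
  have h1 : (∑ i, c i * (sg N (t + x i) - s)) = (∑ i, c i * sg N (t + x i)) - (∑ i, c i) * s := by
    rw [Finset.sum_mul, ← Finset.sum_sub_distrib]
    exact Finset.sum_congr rfl fun i _ => by ring
  rw [h1, hc0, zero_mul, sub_zero]

lemma E_eq {m : ℕ} (c : Fin m → ℝ) (a : Fin m → ℕ) (hc0 : (∑ i, c i) = 0) (n : ℕ) (t : ℝ) :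
    (∑ i, c i * (uf g (n + a i) - a i)) +
      Gf N c (fun i => 2 * Real.pi * a i / Real.log T) t = ∑ i, c i * ee N g T (a i) n t := by
  rw [Gf_sub c _ hc0 t (sg N t + uf g n), ← Finset.sum_add_distrib]
  refine Finset.sum_congr rfl fun i _ => ?_
  unfold ee
  ring

lemma E_mom (hm : Monotone N) (hw : 0 < w) (hT : 0 ≤ T) (p R : ℕ) (S : ℝ) (hS : 0 ≤ S)
    (H : ∀ a ≤ R, PA N g T w (fun n t => ee N g T a n t ^ (2 * p)) ≤ S)
    {m : ℕ} (c : Fin m → ℝ) (a : Fin m → ℕ) (hc : (∑ i, |c i|) ≤ 1) (ha : ∀ i, a i ≤ R) :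
    PA N g T w (fun n t => (∑ i, c i * ee N g T (a i) n t) ^ (2 * p)) ≤
      ((N (2 * T) : ℝ) - N T) + S := by
  have hE : ∀ n, LBd fun t => ∑ i, c i * ee N g T (a i) n t := fun n =>
    LBd.sum Finset.univ (f := fun i t => c i * ee N g T (a i) n t)
      fun i => (LBd.const (c i)).mul (ee_LBd hm (a i) n)
  have hF : ∀ (i : Fin m) (n : ℕ), LBd fun t => |c i| * ee N g T (a i) n t ^ (2 * p) := fun i n =>
    (LBd.const |c i|).mul ((ee_LBd hm (a i) n).pow (2 * p))
  have h1 : PA N g T w (fun n t => (∑ i, c i * ee N g T (a i) n t) ^ (2 * p)) ≤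
      PA N g T w (fun n t => 1 + ∑ i, |c i| * ee N g T (a i) n t ^ (2 * p)) := by
    refine PA_le hw (fun n => (hE n).pow _)
      (fun n => (LBd.const 1).add (LBd.sum Finset.univ fun i => hF i n)) fun n t => ?_
    exact jensen c _ hc p
  have h2 := PA_add (N := N) (g := g) (T := T) (w := w) (f := fun _ _ => 1)
    (h := fun n t => ∑ i, |c i| * ee N g T (a i) n t ^ (2 * p)) (fun n => LBd.const 1)
    (fun n => LBd.sum Finset.univ fun i => hF i n)
  rw [PA_one hw hm hT, PA_sum Finset.univ (f := fun i n t => |c i| * ee N g T (a i) n t ^ (2 * p))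
    hF] at h2
  have h3 : ∑ i, PA N g T w (fun n t => |c i| * ee N g T (a i) n t ^ (2 * p)) ≤ S := by
    calc ∑ i, PA N g T w (fun n t => |c i| * ee N g T (a i) n t ^ (2 * p))
        = ∑ i, |c i| * PA N g T w (fun n t => ee N g T (a i) n t ^ (2 * p)) :=
          Finset.sum_congr rfl fun i _ => PA_mul _ _
      _ ≤ ∑ i, |c i| * S := Finset.sum_le_sum fun i _ =>
          mul_le_mul_of_nonneg_left (H (a i) (ha i)) (abs_nonneg _)
      _ = (∑ i, |c i|) * S := by rw [Finset.sum_mul]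
      _ ≤ 1 * S := mul_le_mul_of_nonneg_right hc hS
      _ = S := one_mul S
  linarith

lemma G_mom (hm : Monotone N) (q : ℕ) (A Cm : ℝ) (hCm : 0 < Cm) (hT : 10 ≤ T)
    (HM : ∀ x y : ℝ, |x| ≤ 2 * Real.pi * A → |y| ≤ 2 * Real.pi * A →
      (∫ t in (3 * T / 4)..(3 * T), (sg N (t + x) - sg N (t + y)) ^ (2 * (2 * q))) ≤
      Cm * T * (1 + Real.log (1 + |x - y| * Real.log T)) ^ (2 * q))
    (R : ℕ) (hR : 1 ≤ R) (hRA : (R : ℝ) ≤ A * Real.log T) {m : ℕ} (c : Fin m → ℝ) (a : Fin m → ℕ)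
    (hc : (∑ i, |c i|) ≤ 1) (hc0 : (∑ i, c i) = 0) (ha : ∀ i, a i ≤ R) :
    (∫ t in (3 * T / 4)..(3 * T),
      (Gf N c (fun i => 2 * Real.pi * a i / Real.log T) t ^ (2 * q)) ^ 2) ≤
      (3 + Cm) * T * (4 * (1 + Real.log R)) ^ (2 * q) := by
  have hTp : 0 < T := by linarith
  have hL : 0 < Real.log T := Real.log_pos (by linarith)
  have hR' : (1 : ℝ) ≤ R := by exact_mod_cast hR
  have hlR : 0 ≤ Real.log R := Real.log_nonneg hR'
  have hpi := Real.pi_gt_three
  have hsg := sg_LBd hm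
  have hG := Gf_LBd hm c (fun i => 2 * Real.pi * a i / Real.log T)
  have hx : ∀ i, |2 * Real.pi * a i / Real.log T| ≤ 2 * Real.pi * A := by
    intro i
    rw [abs_of_nonneg (by positivity), div_le_iff₀ hL]
    have : (a i : ℝ) ≤ R := by exact_mod_cast ha i
    nlinarith
  have hA0 : 0 ≤ 2 * Real.pi * A := by
    have : 0 < A := by
      by_contra h
      nlinarith
    positivity
  have hterm : ∀ i, (1 : ℝ) + Real.log (1 + |2 * Real.pi * a i / Real.log T - 0| * Real.log T) ≤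
      4 * (1 + Real.log R) := by
    intro i
    have h1 : |2 * Real.pi * a i / Real.log T - 0| * Real.log T = 2 * Real.pi * a i := by
      rw [sub_zero, abs_of_nonneg (by positivity)]
      field_simp
    rw [h1]
    have h2 : (a i : ℝ) ≤ R := by exact_mod_cast ha i
    have h3 : Real.log (1 + 2 * Real.pi * a i) ≤ Real.log (2 ^ 4 * R) := by
      refine Real.log_le_log (by positivity) ?_
      have := Real.pi_lt_four
      have h0 : (0 : ℝ) ≤ a i := Nat.cast_nonneg _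
      nlinarith
    rw [Real.log_mul (by norm_num) (by positivity), Real.log_pow] at h3
    have := Real.log_two_lt_d9
    push_cast at h3
    linarith
  have hint : ∀ i, LBd fun t => |c i| *
      (sg N (t + 2 * Real.pi * a i / Real.log T) - sg N (t + 0)) ^ (2 * (2 * q)) := by
    intro i
    refine (LBd.const |c i|).mul (LBd.pow (f := fun t =>
      sg N (t + 2 * Real.pi * a i / Real.log T) - sg N (t + 0)) ?_ _)
    have := (hsg.shift (2 * Real.pi * a i / Real.log T)).add (hsg.shift 0).neg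
    simpa only [sub_eq_add_neg] using this
  have hle : ∀ t, (Gf N c (fun i => 2 * Real.pi * a i / Real.log T) t ^ (2 * q)) ^ 2 ≤
      1 + ∑ i, |c i| *
        (sg N (t + 2 * Real.pi * a i / Real.log T) - sg N (t + 0)) ^ (2 * (2 * q)) := by
    intro t
    have h1 := jensen c (fun i => sg N (t + 2 * Real.pi * a i / Real.log T) - sg N (t + 0)) hc
      (2 * q)
    rw [← Gf_sub c (fun i => 2 * Real.pi * a i / Real.log T) hc0 t (sg N (t + 0))] at h1
    rw [← pow_mul, mul_comm (2 * q) 2]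
    exact h1
  have h1 := intervalIntegral.integral_mono (a := 3 * T / 4) (b := 3 * T) (by linarith)
    (((hG.pow (2 * q)).pow 2).ii _ _)
    (((LBd.const 1).add (LBd.sum Finset.univ hint)).ii _ _) hle
  refine h1.trans ?_
  rw [intervalIntegral.integral_add ((LBd.const 1).ii _ _) ((LBd.sum Finset.univ hint).ii _ _),
    intervalIntegral.integral_finsetSum fun i _ => (hint i).ii _ _]
  simp only [intervalIntegral.integral_const_mul, intervalIntegral.integral_const, smul_eq_mul,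
    mul_one]
  have hQ1 : (1 : ℝ) ≤ (4 * (1 + Real.log R)) ^ (2 * q) := one_le_pow₀ (by linarith)
  have h2 : ∑ i, |c i| * (∫ t in (3 * T / 4)..(3 * T),
      (sg N (t + 2 * Real.pi * a i / Real.log T) - sg N (t + 0)) ^ (2 * (2 * q))) ≤
      Cm * T * (4 * (1 + Real.log R)) ^ (2 * q) := by
    calc ∑ i, |c i| * (∫ t in (3 * T / 4)..(3 * T),
          (sg N (t + 2 * Real.pi * a i / Real.log T) - sg N (t + 0)) ^ (2 * (2 * q)))
        ≤ ∑ i, |c i| * (Cm * T * (4 * (1 + Real.log R)) ^ (2 * q)) := by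
          refine Finset.sum_le_sum fun i _ => mul_le_mul_of_nonneg_left ?_ (abs_nonneg _)
          refine (HM _ 0 (hx i) (by rw [abs_zero]; exact hA0)).trans ?_
          refine mul_le_mul_of_nonneg_left (pow_le_pow_left₀ ?_ (hterm i) _) (by positivity)
          have : 0 ≤ |2 * Real.pi * a i / Real.log T - 0| * Real.log T := by positivity
          have := Real.log_nonneg (x := 1 + |2 * Real.pi * a i / Real.log T - 0| * Real.log T)
            (by linarith)
          linarith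
      _ = (∑ i, |c i|) * (Cm * T * (4 * (1 + Real.log R)) ^ (2 * q)) := by rw [Finset.sum_mul]
      _ ≤ 1 * (Cm * T * (4 * (1 + Real.log R)) ^ (2 * q)) :=
          mul_le_mul_of_nonneg_right hc (by positivity)
      _ = Cm * T * (4 * (1 + Real.log R)) ^ (2 * q) := one_mul _
  nlinarith

lemma step1 (hm : Monotone N) (hw : 0 < w) (q : ℕ) (lam : ℝ) (hlam : 1 ≤ lam) {m : ℕ}
    (c : Fin m → ℝ) (a : Fin m → ℕ) (hc0 : (∑ i, c i) = 0) :
    |(∑ n ∈ Finset.Ioc (N T) (N (2 * T)), (∑ i, c i * (uf g (n + a i) - a i)) ^ (q + 1)) -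
      (-1) ^ (q + 1) * PA N g T w (fun _ t =>
        Gf N c (fun i => 2 * Real.pi * a i / Real.log T) t ^ (q + 1))| ≤
    ((q + 1 : ℕ) * 2 ^ q : ℝ) *
      (2 * lam * PA N g T w (fun n t => (∑ i, c i * ee N g T (a i) n t) ^ (2 * 1)) +
        PA N g T w (fun n t => (∑ i, c i * ee N g T (a i) n t) ^ (2 * q)) +
        lam⁻¹ * PA N g T w (fun _ t =>
          Gf N c (fun i => 2 * Real.pi * a i / Real.log T) t ^ (2 * q))) := by
  obtain ⟨G, hG⟩ : ∃ G, G = Gf N c (fun i => 2 * Real.pi * a i / Real.log T) := ⟨_, rfl⟩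
  obtain ⟨E, hE⟩ : ∃ E : ℕ → ℝ → ℝ, E = fun n t => ∑ i, c i * ee N g T (a i) n t := ⟨_, rfl⟩
  obtain ⟨Y, hY⟩ : ∃ Y : ℕ → ℝ, Y = fun n => ∑ i, c i * (uf g (n + a i) - a i) := ⟨_, rfl⟩
  have lG : LBd G := by rw [hG]; exact Gf_LBd hm c _
  have lE : ∀ n, LBd (E n) := fun n => by
    rw [hE]
    exact LBd.sum Finset.univ (f := fun i t => c i * ee N g T (a i) n t)
      fun i => (LBd.const (c i)).mul (ee_LBd hm (a i) n)
  have hYE : ∀ n t, Y n = -G t + E n t := by
    intro n t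
    have := E_eq (N := N) (g := g) (T := T) c a hc0 n t
    rw [hY, hG, hE]
    simp only
    linarith
  obtain ⟨Ck, hCk⟩ : ∃ Ck : ℝ, Ck = ((q + 1 : ℕ) * 2 ^ q : ℝ) := ⟨_, rfl⟩
  have hCk0 : 0 ≤ Ck := by rw [hCk]; positivity
  obtain ⟨H, hH⟩ : ∃ H : ℕ → ℝ → ℝ, H = fun n t =>
    Ck * (2 * lam * E n t ^ (2 * 1) + E n t ^ (2 * q) + lam⁻¹ * G t ^ (2 * q)) := ⟨_, rfl⟩
  have lH : ∀ n, LBd (H n) := fun n => by
    rw [hH]
    exact (LBd.const Ck).mul ((((LBd.const (2 * lam)).mul ((lE n).pow _)).add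
      ((lE n).pow _)).add ((LBd.const lam⁻¹).mul (lG.pow _)))
  have hHe : PA N g T w H = Ck * (2 * lam * PA N g T w (fun n t => E n t ^ (2 * 1)) +
      PA N g T w (fun n t => E n t ^ (2 * q)) + lam⁻¹ * PA N g T w (fun _ t => G t ^ (2 * q))) := by
    rw [hH, PA_mul, PA_add (f := fun n t => 2 * lam * E n t ^ (2 * 1) + E n t ^ (2 * q))
      (h := fun _ t => lam⁻¹ * G t ^ (2 * q))
      (fun n => ((LBd.const (2 * lam)).mul ((lE n).pow _)).add ((lE n).pow _))
      (fun n => (LBd.const lam⁻¹).mul (lG.pow _)),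
      PA_add (f := fun n t => 2 * lam * E n t ^ (2 * 1)) (h := fun n t => E n t ^ (2 * q))
      (fun n => (LBd.const (2 * lam)).mul ((lE n).pow _)) (fun n => (lE n).pow _),
      PA_mul, PA_mul]
  have hpt : ∀ n t, |Y n ^ (q + 1) - (-1) ^ (q + 1) * G t ^ (q + 1)| ≤ H n t := by
    intro n t
    have h1 := pow_diff q (Y n) (-G t) (E n t) lam (hYE n t) hlam
    have e1 : (-G t) ^ (2 * q) = G t ^ (2 * q) := (even_two_mul q).neg_pow _
    have e2 : (-G t) ^ (q + 1) = (-1) ^ (q + 1) * G t ^ (q + 1) := neg_pow _ _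
    rw [e1, e2, ← hCk] at h1
    rw [hH]
    simpa using h1
  have lY : ∀ n, LBd fun _ : ℝ => Y n ^ (q + 1) := fun n => LBd.const _
  have lZ : ∀ _n : ℕ, LBd fun t => (-1) ^ (q + 1) * G t ^ (q + 1) := fun _ =>
    (LBd.const _).mul (lG.pow _)
  have h1 : PA N g T w (fun n _ => Y n ^ (q + 1)) ≤
      PA N g T w (fun n t => (-1) ^ (q + 1) * G t ^ (q + 1) + H n t) :=
    PA_le hw lY (fun n => (lZ n).add (lH n)) fun n t => by linarith [(abs_le.1 (hpt n t)).2]
  have h2 : PA N g T w (fun _ t => (-1) ^ (q + 1) * G t ^ (q + 1)) ≤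
      PA N g T w (fun n t => Y n ^ (q + 1) + H n t) :=
    PA_le hw lZ (fun n => (lY n).add (lH n)) fun n t => by linarith [(abs_le.1 (hpt n t)).1]
  rw [PA_add (f := fun _ t => (-1) ^ (q + 1) * G t ^ (q + 1)) (h := H) lZ lH, PA_mul] at h1
  rw [PA_add (f := fun n _ => Y n ^ (q + 1)) (h := H) lY lH, PA_mul] at h2
  rw [PA_const hw (fun n => Y n ^ (q + 1))] at h1 h2
  have h3 : |(∑ n ∈ Finset.Ioc (N T) (N (2 * T)), Y n ^ (q + 1)) -
      (-1) ^ (q + 1) * PA N g T w (fun _ t => G t ^ (q + 1))| ≤ PA N g T w H := by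
    rw [abs_le]
    constructor <;> linarith
  rw [hHe] at h3
  rw [hY, hG, hE, hCk] at h3
  exact h3

end

end Pool.Agent.U667.MV4
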